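import Mathlib

open MvPolynomial

namespace Pool.Agent.Results.MP_119ce6_al.PositiveChar

section Comm

variable {K : Type*} [Field K] {I : Type*}

theorem pd_comm (i j : I) (f : MvPolynomial I K) :
    pderiv i (pderiv j f) = pderiv j (pderiv i f) := by
  classical
  have h : ⁅(pderiv i : Derivation K (MvPolynomial I K) (MvPolynomial I K)),
      (pderiv j : Derivation K (MvPolynomial I K) (MvPolynomial I K))⁆ = 0 := by
    apply derivation_ext
    intro k
    rw [Derivation.commutator_apply]
    by_cases h1 : i = k <;> by_cases h2 : j = k <;> simp [pderiv_X, h1, h2]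
  have := congrArg (fun D => D f) h
  simpa [Derivation.commutator_apply, sub_eq_zero] using this

theorem chain [Fintype I] (g : I → MvPolynomial I K) (i : I) (f : MvPolynomial I K) :
    pderiv i (aeval g f) = ∑ j, aeval g (pderiv j f) * pderiv i (g j) := by
  classical
  induction f using MvPolynomial.induction_on with
  | C a => simp
  | add p q hp hq => rw [map_add, map_add, hp, hq, ← Finset.sum_add_distrib]; simp [add_mul]
  | mul_X p k hp =>
    simp only [map_mul, aeval_X, pderiv_mul, hp, map_add, add_mul, Finset.sum_add_distrib]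
    congr 1
    · rw [Finset.sum_mul]
      refine Finset.sum_congr rfl fun j _ => by ring
    · rw [Finset.sum_eq_single k]
      · simp
      · intro j _ hj
        simp [pderiv_X_of_ne (Ne.symm hj)]
      · simp

/-- partial derivatives as commuting operators -/
noncomputable def Dl (i : I) : Module.End K (MvPolynomial I K) :=
  (pderiv i : Derivation K (MvPolynomial I K) (MvPolynomial I K)).toLinearMap

theorem Dl_apply (i : I) (f : MvPolynomial I K) : Dl i f = pderiv i f := rfl

theorem Dl_comm (i j : I) : (Dl i : Module.End K (MvPolynomial I K)) * Dl j = Dl j * Dl i := by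
  refine LinearMap.ext fun f => ?_
  exact pd_comm i j f

/-- constant coefficient differential operators -/
noncomputable def act : MvPolynomial I K →ₐ[K] Module.End K (MvPolynomial I K) :=
  letI : CommRing (Algebra.adjoin K (Set.range (Dl : I → Module.End K (MvPolynomial I K)))) :=
    Algebra.adjoinCommRingOfComm K (by
      rintro _ ⟨i, rfl⟩ _ ⟨j, rfl⟩
      exact Dl_comm i j)
  (Algebra.adjoin K (Set.range (Dl : I → Module.End K (MvPolynomial I K)))).val.comp
    (aeval (R := K) fun i => ⟨Dl i, Algebra.subset_adjoin ⟨i, rfl⟩⟩)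

theorem act_X (i : I) (f : MvPolynomial I K) : act (X i) f = pderiv i f := by
  simp only [act, AlgHom.comp_apply, aeval_X]
  rfl

theorem act_mul (P Q f : MvPolynomial I K) : act (P * Q) f = act P (act Q f) := by
  rw [map_mul]; rfl

theorem act_C (c : K) (f : MvPolynomial I K) : act (C c) f = C c * f := by
  have : (C c : MvPolynomial I K) = algebraMap K _ c := rfl
  rw [this, AlgHom.commutes]
  rw [Module.algebraMap_end_apply, Algebra.smul_def]

theorem act_add (P Q f : MvPolynomial I K) : act (P + Q) f = act P f + act Q f := by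
  rw [map_add]; rfl

theorem pd_iter_monomial (i : I) (k : ℕ) (s : I →₀ ℕ) (a : K) :
    act (X i ^ k) (monomial s a) =
      monomial (s - Finsupp.single i k) (a * (s i).descFactorial k) := by
  induction k with
  | zero => simp
  | succ k ih =>
    rw [pow_succ', act_mul, ih, act_X, pderiv_monomial]
    congr 1
    · rw [tsub_tsub, ← Finsupp.single_add]
    · rw [Nat.descFactorial_succ]
      simp only [Finsupp.coe_tsub, Pi.sub_apply, Finsupp.single_eq_same]
      push_cast
      ring

theorem pd_p (p : ℕ) [Fact p.Prime] [CharP K p] (i : I) (f : MvPolynomial I K) :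
    act (X i ^ p) f = 0 := by
  induction f using MvPolynomial.induction_on' with
  | monomial s a =>
    rw [pd_iter_monomial]
    have : ((s i).descFactorial p : K) = 0 := by
      rw [CharP.cast_eq_zero_iff K p]
      exact (Nat.dvd_factorial (Fact.out : p.Prime).pos le_rfl).trans
        (Nat.factorial_dvd_descFactorial _ _)
    rw [this, mul_zero, map_zero]
  | add p q hp hq => rw [map_add, hp, hq, add_zero]

theorem act_dvd_zero {P Q f : MvPolynomial I K} (h : P ∣ Q) (hP : act P f = 0) : act Q f = 0 := by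
  obtain ⟨w, rfl⟩ := h
  rw [mul_comm, act_mul, hP, map_zero]

/-- the operators which commute with an algebra endomorphism -/
def Cm (τ : MvPolynomial I K →ₐ[K] MvPolynomial I K) (P : MvPolynomial I K) : Prop :=
  ∀ f, act P (τ f) = τ (act P f)

theorem Cm.mul {τ : MvPolynomial I K →ₐ[K] MvPolynomial I K} {P Q : MvPolynomial I K}
    (hP : Cm τ P) (hQ : Cm τ Q) : Cm τ (P * Q) := by
  intro f
  rw [act_mul, act_mul, hQ, hP]

theorem Cm.one (τ : MvPolynomial I K →ₐ[K] MvPolynomial I K) : Cm τ 1 := by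
  intro f
  simp

theorem Cm.pow {τ : MvPolynomial I K →ₐ[K] MvPolynomial I K} {P : MvPolynomial I K}
    (hP : Cm τ P) (k : ℕ) : Cm τ (P ^ k) := by
  induction k with
  | zero => simpa using Cm.one τ
  | succ k ih => rw [pow_succ]; exact ih.mul hP

theorem Cm.prod {τ : MvPolynomial I K →ₐ[K] MvPolynomial I K} {J : Type*} (S : Finset J)
    (P : J → MvPolynomial I K) (h : ∀ j ∈ S, Cm τ (P j)) : Cm τ (∏ j ∈ S, P j) := by
  classical
  induction S using Finset.induction_on with
  | empty => simpa using Cm.one τ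
  | insert j S hj ih =>
    rw [Finset.prod_insert hj]
    exact (h j (by simp)).mul (ih fun k hk => h k (by simp [hk]))

variable [Fintype I] [DecidableEq I]

/-- the operator `∂_j^{p-2} ∏_{i ≠ j} ∂_i^{p-1}` -/
noncomputable def opN (p : ℕ) (j : I) : MvPolynomial I K :=
  X j ^ (p - 2) * ∏ i ∈ Finset.univ.erase j, X i ^ (p - 1)

/-- the form -/
noncomputable def EE (p : ℕ) (j : I) (f : MvPolynomial I K) : MvPolynomial I K :=
  act (opN p j) (f ^ (p - 1) * pderiv j f)

theorem pd_swap (p : ℕ) (i j : I) (f : MvPolynomial I K) :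
    pderiv i (f ^ (p - 1) * pderiv j f) = pderiv j (f ^ (p - 1) * pderiv i f) := by
  rw [pderiv_mul, pderiv_mul, pd_comm i j, pderiv_pow, pderiv_pow]
  ring

theorem opN_eq (p : ℕ) (hp : 2 ≤ p) {i j : I} (hij : i ≠ j) :
    (opN p j : MvPolynomial I K) =
      ((X i ^ (p - 2) * X j ^ (p - 2)) * ∏ k ∈ (Finset.univ.erase j).erase i, X k ^ (p - 1)) * X i := by
  unfold opN
  rw [← Finset.mul_prod_erase (Finset.univ.erase j) (fun k => (X k : MvPolynomial I K) ^ (p - 1))
    (a := i) (by simp [hij])]
  have : p - 1 = (p - 2) + 1 := by omega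
  rw [this, pow_succ]
  ring

theorem EE_indep (p : ℕ) (hp : 2 ≤ p) (i j : I) (f : MvPolynomial I K) : EE p i f = EE p j f := by
  by_cases hij : i = j
  · rw [hij]
  unfold EE
  rw [opN_eq p hp hij, opN_eq p hp (Ne.symm hij), act_mul _ (X i), act_mul _ (X j), act_X, act_X,
    pd_swap, Finset.erase_right_comm, mul_comm (X j ^ (p - 2)) (X i ^ (p - 2))]

/-- the key vanishing -/
theorem key (p : ℕ) [Fact p.Prime] [CharP K p] (i j : I) (f : MvPolynomial I K) :
    act (X i * X j * X j ^ (p - 2)) (f ^ (p - 1) * pderiv j f) = 0 := by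
  have hp : 2 ≤ p := (Fact.out : p.Prime).two_le
  have h1 : (X i * X j * X j ^ (p - 2) : MvPolynomial I K) = X j ^ (p - 1) * X i := by
    have : p - 1 = (p - 2) + 1 := by omega
    rw [this, pow_succ]; ring
  rw [h1, act_mul, act_X, pd_swap, ← act_X, ← act_mul, ← pow_succ]
  have : p - 1 + 1 = p := by omega
  rw [this, pd_p]

/-- linear substitutions -/
noncomputable def lin (M : Matrix I I K) : MvPolynomial I K →ₐ[K] MvPolynomial I K :=
  aeval fun i => ∑ j, C (M i j) * X j

/-- translations -/
noncomputable def tr (b : I → K) : MvPolynomial I K →ₐ[K] MvPolynomial I K :=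
  aeval fun i => X i + C (b i)

/-- good endomorphisms -/
def Good (p : ℕ) (τ : MvPolynomial I K →ₐ[K] MvPolynomial I K) : Prop :=
  ∃ u : K, u ≠ 0 ∧ ∀ j f, EE p j (τ f) = C u * τ (EE p j f)

theorem good_of (p : ℕ) (hp : 2 ≤ p) (τ : MvPolynomial I K →ₐ[K] MvPolynomial I K) (j : I) (u : K)
    (hu : u ≠ 0) (h : ∀ f, EE p j (τ f) = C u * τ (EE p j f)) : Good p τ := by
  refine ⟨u, hu, fun k f => ?_⟩
  rw [EE_indep p hp k j, EE_indep p hp k j, h]

theorem Good.comp {p : ℕ} {τ υ : MvPolynomial I K →ₐ[K] MvPolynomial I K} (h1 : Good p τ)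
    (h2 : Good p υ) : Good p (τ.comp υ) := by
  obtain ⟨u, hu, h⟩ := h1
  obtain ⟨v, hv, h'⟩ := h2
  refine ⟨u * v, mul_ne_zero hu hv, fun j f => ?_⟩
  have hc : τ (C v) = C v := by
    have : (C v : MvPolynomial I K) = algebraMap K _ v := rfl
    rw [this, AlgHom.commutes]
  rw [AlgHom.comp_apply, AlgHom.comp_apply, h, h', map_mul, hc, C_mul, mul_assoc]

theorem pd_lin (M : Matrix I I K) (k : I) (f : MvPolynomial I K) :
    pderiv k (lin M f) = lin M (act (∑ m, C (M m k) * X m) f) := by
  unfold lin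
  rw [chain, map_sum, LinearMap.sum_apply, map_sum]
  refine Finset.sum_congr rfl fun m _ => ?_
  rw [act_mul, act_C, act_X, map_mul, mul_comm]
  congr 1
  rw [map_sum, Finset.sum_eq_single k]
  · simp
  · intro j _ hj
    simp [pderiv_X_of_ne hj]
  · simp

theorem act_lin (M : Matrix I I K) (P f : MvPolynomial I K) :
    act P (lin M f) = lin M (act (lin M.transpose P) f) := by
  induction P using MvPolynomial.induction_on generalizing f with
  | C a =>
    have : lin M.transpose (C a) = C a := by simp [lin]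
    rw [this, act_C, act_C, map_mul]
    congr 1
    simp [lin]
  | add P Q hP hQ => rw [act_add, hP, hQ, map_add, act_add, map_add]
  | mul_X P k hP =>
    rw [act_mul, act_X, pd_lin, hP, map_mul, act_mul]
    have : lin M.transpose (X k) = ∑ m, C (M m k) * X m := by simp [lin]
    rw [this]

theorem pd_tr (b : I → K) (k : I) (f : MvPolynomial I K) :
    pderiv k (tr b f) = tr b (pderiv k f) := by
  unfold tr
  rw [chain, Finset.sum_eq_single k]
  · simp
  · intro j _ hj
    simp [pderiv_X_of_ne hj]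
  · simp

theorem good_tr (p : ℕ) (b : I → K) : Good p (tr b) := by
  refine ⟨1, one_ne_zero, fun j f => ?_⟩
  have hX : ∀ k : I, Cm (tr b) (X k) := fun k f => by rw [act_X, act_X, pd_tr]
  have h : Cm (tr b) (opN p j) :=
    ((hX j).pow _).mul (Cm.prod _ _ fun k _ => (hX k).pow _)
  rw [C_1, one_mul]
  unfold EE
  rw [pd_tr, ← map_pow, ← map_mul, h]

theorem lin_diag (d : I → K) (k : I) : lin (Matrix.diagonal d) (X k) = C (d k) * X k := by
  unfold lin
  rw [aeval_X, Finset.sum_eq_single k]
  · simp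
  · intro j _ hj
    simp [Matrix.diagonal_apply_ne' _ hj]
  · simp

theorem good_diag (p : ℕ) (hp : 2 ≤ p) (d : I → K) (hd : ∀ i, d i ≠ 0) (j : I) :
    Good p (lin (Matrix.diagonal d)) := by
  refine good_of p hp _ j (∏ i, d i ^ (p - 1)) (Finset.prod_ne_zero_iff.2 fun i _ =>
    pow_ne_zero _ (hd i)) fun f => ?_
  have h1 : pderiv j (lin (Matrix.diagonal d) f) = C (d j) * lin (Matrix.diagonal d) (pderiv j f) := by
    have := act_lin (Matrix.diagonal d) (X j) f
    rw [Matrix.diagonal_transpose, lin_diag, act_mul, act_C, act_X, act_X, map_mul] at this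
    rw [this]
    congr 1
    simp [lin]
  have h2 : lin (Matrix.diagonal d) (opN p j) =
      C (d j ^ (p - 2) * ∏ i ∈ Finset.univ.erase j, d i ^ (p - 1)) * opN p j := by
    unfold opN
    rw [map_mul, map_pow, map_prod, lin_diag]
    simp_rw [map_pow, lin_diag, mul_pow]
    rw [Finset.prod_mul_distrib, C_mul, C_pow, map_prod]
    simp_rw [C_pow]
    ring
  have h3 : lin (Matrix.diagonal d) f ^ (p - 1) * pderiv j (lin (Matrix.diagonal d) f) =
      C (d j) * lin (Matrix.diagonal d) (f ^ (p - 1) * pderiv j f) := by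
    rw [h1, map_mul, map_pow]; ring
  have hC : ∀ (P g : MvPolynomial I K) (c : K), act P (C c * g) = C c * act P g := by
    intro P g c
    rw [← smul_eq_C_mul, map_smul, smul_eq_C_mul]
  unfold EE
  rw [h3, hC, act_lin, Matrix.diagonal_transpose, h2, act_mul, act_C, map_mul, ← mul_assoc]
  congr 1
  have h4 : lin (Matrix.diagonal d) (C (d j ^ (p - 2) * ∏ i ∈ Finset.univ.erase j, d i ^ (p - 1))) =
    C (d j ^ (p - 2) * ∏ i ∈ Finset.univ.erase j, d i ^ (p - 1)) := by simp [lin]
  rw [h4, ← C_mul, ← Finset.mul_prod_erase Finset.univ (fun i => d i ^ (p - 1)) (Finset.mem_univ j)]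
  congr 1
  have : p - 1 = (p - 2) + 1 := by omega
  rw [this, pow_succ]
  ring

theorem lin_transv (a b : I) (c : K) (k : I) :
    lin (Matrix.transvection a b c) (X k) = X k + if k = a then C c * X b else 0 := by
  unfold lin Matrix.transvection
  rw [aeval_X]
  simp only [Matrix.add_apply, Matrix.one_apply, Matrix.single_apply, map_add, add_mul,
    Finset.sum_add_distrib]
  congr 1
  · rw [Finset.sum_eq_single k]
    · simp
    · intro j _ hj; simp [Ne.symm hj]
    · simp
  · rw [Finset.sum_eq_single b]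
    · by_cases h : k = a
      · simp [h]
      · simp [h, Ne.symm h]
    · intro j _ hj; simp [Ne.symm hj]
    · simp

theorem good_transv (p : ℕ) [Fact p.Prime] [CharP K p] (a b c' : I) (hab : a ≠ b) (hca : c' ≠ a)
    (hcb : c' ≠ b) (c : K) : Good p (lin (Matrix.transvection a b c)) := by
  have hp : 2 ≤ p := (Fact.out : p.Prime).two_le
  refine good_of p hp _ a 1 one_ne_zero fun f => ?_
  rw [C_1, one_mul]
  set τ : MvPolynomial I K →ₐ[K] MvPolynomial I K := lin (Matrix.transvection a b c) with hτ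
  have ht : (Matrix.transvection a b c : Matrix I I K).transpose = Matrix.transvection b a c := by
    unfold Matrix.transvection
    rw [Matrix.transpose_add, Matrix.transpose_one, Matrix.transpose_single]
  have h1 : pderiv a (τ f) = τ (pderiv a f) := by
    have := act_lin (Matrix.transvection a b c) (X a) f
    rw [ht, lin_transv, if_neg hab, add_zero, act_X, act_X] at this
    exact this
  unfold EE
  rw [h1, ← map_pow, ← map_mul, act_lin, ht]
  congr 1
  rw [← sub_eq_zero, ← LinearMap.sub_apply, ← map_sub]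
  refine act_dvd_zero (P := X c' * X a * X a ^ (p - 2)) ?_ (key p c' a f)
  -- divisibility
  have hopN : (opN p a : MvPolynomial I K) =
      (X a ^ (p - 2) * (X c' ^ (p - 1) *
        ∏ k ∈ ((Finset.univ.erase a).erase b).erase c', X k ^ (p - 1))) * X b ^ (p - 1) := by
    unfold opN
    rw [← Finset.mul_prod_erase (Finset.univ.erase a)
      (fun k => (X k : MvPolynomial I K) ^ (p - 1)) (a := b) (by simp [Ne.symm hab]),
      ← Finset.mul_prod_erase ((Finset.univ.erase a).erase b)
      (fun k => (X k : MvPolynomial I K) ^ (p - 1)) (a := c') (by simp [hca, hcb])]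
    ring
  have hfix : ∀ k : I, k ≠ b → lin (Matrix.transvection b a c) (X k) = X k := by
    intro k hk
    rw [lin_transv, if_neg hk, add_zero]
  have hb : lin (Matrix.transvection b a c) (X b) = X b + C c * X a := by
    rw [lin_transv, if_pos rfl]
  have hprod : lin (Matrix.transvection b a c)
      (∏ k ∈ ((Finset.univ.erase a).erase b).erase c', X k ^ (p - 1)) =
      ∏ k ∈ ((Finset.univ.erase a).erase b).erase c', X k ^ (p - 1) := by
    rw [map_prod]
    refine Finset.prod_congr rfl fun k hk => ?_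
    rw [map_pow, hfix k]
    simp only [Finset.mem_erase] at hk
    exact hk.2.1
  rw [hopN, map_mul, map_mul, map_mul, map_pow, map_pow, map_pow, hprod, hb, hfix a hab,
    hfix c' hcb, ← mul_sub]
  have hd : (X a : MvPolynomial I K) ∣ (X b + C c * X a) ^ (p - 1) - X b ^ (p - 1) := by
    refine Dvd.dvd.trans ?_ (sub_dvd_pow_sub_pow _ _ _)
    exact ⟨C c, by ring⟩
  obtain ⟨w, hw⟩ := hd
  rw [hw]
  have hc1 : (X c' : MvPolynomial I K) ^ (p - 1) = X c' ^ (p - 2) * X c' := by
    have : p - 1 = (p - 2) + 1 := by omega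
    rw [this, pow_succ]
  rw [hc1]
  refine ⟨X c' ^ (p - 2) * (∏ k ∈ ((Finset.univ.erase a).erase b).erase c', X k ^ (p - 1)) * w, ?_⟩
  ring

/-- the quadratic map -/
noncomputable def qu (a b l : I) : MvPolynomial I K →ₐ[K] MvPolynomial I K :=
  aeval fun i => if i = l then X l + X a * X b else X i

theorem pd_qu (a b l k : I) (hal : a ≠ l) (hbl : b ≠ l) (hk : k ≠ a) (hk' : k ≠ b)
    (f : MvPolynomial I K) : pderiv k (qu a b l f) = qu a b l (pderiv k f) := by
  unfold qu
  rw [chain, Finset.sum_eq_single k]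
  · by_cases h : k = l
    · subst h
      simp [pderiv_X_of_ne hal, pderiv_X_of_ne hbl]
    · simp [h]
  · intro j _ hj
    by_cases h : j = l
    · subst h
      simp [pderiv_X_of_ne hj, pderiv_X_of_ne (Ne.symm hk),
        pderiv_X_of_ne (Ne.symm hk')]
    · simp [h, pderiv_X_of_ne hj]
  · simp

theorem pd_qu' (a b l k : I) (hal : a ≠ l) (hbl : b ≠ l) (hk : k = a ∨ k = b)
    (f : MvPolynomial I K) (hf : pderiv l f = 0) :
    pderiv k (qu a b l f) = qu a b l (pderiv k f) := by
  unfold qu
  have hkl : k ≠ l := by rcases hk with rfl | rfl <;> assumption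
  rw [chain, Finset.sum_eq_single k]
  · simp [hkl]
  · intro j _ hj
    by_cases h : j = l
    · subst h
      simp [hf]
    · simp [h, pderiv_X_of_ne hj]
  · simp

theorem pow_qu (a b l k : I) (hal : a ≠ l) (hbl : b ≠ l) (hk : k = a ∨ k = b)
    (f : MvPolynomial I K) (hf : pderiv l f = 0) (m : ℕ) :
    act (X k ^ m) (qu a b l f) = qu a b l (act (X k ^ m) f) := by
  induction m with
  | zero => simp
  | succ m ih =>
    rw [pow_succ', act_mul, ih, act_mul, act_X, act_X]
    refine pd_qu' a b l k hal hbl hk _ ?_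
    rw [← act_X, ← act_mul, mul_comm, act_mul, act_X, hf, map_zero]

theorem good_qu (p : ℕ) [Fact p.Prime] [CharP K p] (a b l c' : I) (hab : a ≠ b) (hal : a ≠ l)
    (hbl : b ≠ l) (hca : c' ≠ a) (hcb : c' ≠ b) (hcl : c' ≠ l) : Good p (qu (K := K) a b l) := by
  have hp : 2 ≤ p := (Fact.out : p.Prime).two_le
  refine good_of p hp _ l 1 one_ne_zero fun f => ?_
  rw [C_1, one_mul]
  set Q : MvPolynomial I K :=
    X l ^ (p - 2) * ∏ k ∈ ((Finset.univ.erase l).erase a).erase b, X k ^ (p - 1) with hQ
  have hopN : (opN p l : MvPolynomial I K) = X b ^ (p - 1) * (X a ^ (p - 1) * Q) := by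
    rw [hQ]
    unfold opN
    rw [← Finset.mul_prod_erase (Finset.univ.erase l)
      (fun k => (X k : MvPolynomial I K) ^ (p - 1)) (a := a) (by simp [hal]),
      ← Finset.mul_prod_erase ((Finset.univ.erase l).erase a)
      (fun k => (X k : MvPolynomial I K) ^ (p - 1)) (a := b) (by simp [hbl, Ne.symm hab])]
    ring
  have hCX : ∀ k : I, k ≠ a → k ≠ b → Cm (qu (K := K) a b l) (X k) := fun k h1 h2 g => by
    rw [act_X, act_X, pd_qu a b l k hal hbl h1 h2]
  have hCQ : Cm (qu (K := K) a b l) Q := by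
    refine ((hCX l (Ne.symm hal) (Ne.symm hbl)).pow _).mul (Cm.prod _ _ fun k hk => ?_)
    simp only [Finset.mem_erase] at hk
    exact (hCX k hk.2.1 hk.1).pow _
  have hz : pderiv l (act Q (f ^ (p - 1) * pderiv l f)) = 0 := by
    rw [← act_X, ← act_mul]
    refine act_dvd_zero (P := X c' * X l * X l ^ (p - 2)) ?_ (key p c' l f)
    have h1 : (X c' : MvPolynomial I K) ∣
        ∏ k ∈ ((Finset.univ.erase l).erase a).erase b, X k ^ (p - 1) := by
      refine Dvd.dvd.trans ?_ (Finset.dvd_prod_of_mem _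
        (a := c') (by simp [hca, hcb, hcl]))
      exact dvd_pow_self _ (by omega)
    obtain ⟨w, hw⟩ := h1
    rw [hQ, hw]
    exact ⟨w, by ring⟩
  unfold EE
  rw [pd_qu a b l l hal hbl (Ne.symm hal) (Ne.symm hbl), ← map_pow, ← map_mul, hopN, act_mul,
    act_mul, act_mul _ _ (f ^ (p - 1) * pderiv l f), act_mul _ _ (f ^ (p - 1) * pderiv l f), hCQ]
  generalize act Q (f ^ (p - 1) * pderiv l f) = h at hz
  rw [pow_qu a b l a hal hbl (Or.inl rfl) _ hz, pow_qu a b l b hal hbl (Or.inr rfl)]
  rw [← act_X, ← act_mul, mul_comm, act_mul, act_X, hz, map_zero]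

theorem EE_X (p : ℕ) (hp : 2 ≤ p) (j l c' : I) (hcl : c' ≠ l) :
    EE (K := K) p j (X l) = 0 := by
  rw [EE_indep p hp j c']
  unfold EE
  rw [pderiv_X_of_ne (Ne.symm hcl), mul_zero, map_zero]

theorem iter_pow (l : I) (g : MvPolynomial I K) (hg : pderiv l g = 1) (N k : ℕ) (hk : k ≤ N) :
    act (X l ^ k) (g ^ N) = C (N.descFactorial k : K) * g ^ (N - k) := by
  induction k with
  | zero => simp
  | succ k ih =>
    rw [pow_succ', act_mul, ih (by omega), act_X, pderiv_C_mul, pderiv_pow, hg,
      Nat.descFactorial_succ, mul_one]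
    have : N - k - 1 = N - (k + 1) := by omega
    rw [this]
    push_cast
    rw [C_mul, map_natCast C (N - k)] 
    ring

theorem prod_monomial (S : Finset I) (m : ℕ) (s : I →₀ ℕ) (a : K) :
    act (∏ i ∈ S, X i ^ m) (monomial s a) =
      monomial (s - ∑ i ∈ S, Finsupp.single i m) (a * ∏ i ∈ S, ((s i).descFactorial m : K)) := by
  induction S using Finset.induction_on with
  | empty => simp
  | insert j S hj ih =>
    rw [Finset.prod_insert hj, act_mul, ih, pd_iter_monomial, Finset.prod_insert hj,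
      Finset.sum_insert hj]
    have h0 : (∑ i ∈ S, Finsupp.single i m) j = 0 := by
      rw [Finsupp.finset_sum_apply]
      refine Finset.sum_eq_zero fun i hi => ?_
      rw [Finsupp.single_apply, if_neg]
      rintro rfl
      exact hj hi
    congr 1
    · rw [tsub_tsub, add_comm]
    · rw [Finsupp.coe_tsub, Pi.sub_apply, h0, Nat.sub_zero]
      ring

theorem EE_ne (p : ℕ) [Fact p.Prime] [CharP K p] (l c' : I) (hcl : c' ≠ l) :
    EE (K := K) p l (X l + ∏ i ∈ Finset.univ.erase l, X i ^ (p - 1)) ≠ 0 := by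
  have hp : 2 ≤ p := (Fact.out : p.Prime).two_le
  have hfac : ((p - 1).factorial : K) ≠ 0 := by
    intro h
    rw [CharP.cast_eq_zero_iff K p, (Fact.out : p.Prime).dvd_factorial] at h
    omega
  have hdesc : ((p - 1).descFactorial (p - 2) : K) ≠ 0 := by
    intro h
    apply hfac
    rw [← Nat.descFactorial_self (p - 1)]
    have h1 : p - 1 = (p - 2) + 1 := by omega
    have h2 : (p - 1).descFactorial (p - 1) = (p - 1 - (p - 2)) * (p - 1).descFactorial (p - 2) := by
      conv_lhs => rw [h1]
      rw [← h1]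
      conv_lhs => rw [show (p - 1).descFactorial (p - 1) = (p - 1).descFactorial ((p - 2) + 1) by rw [← h1]]
      rw [Nat.descFactorial_succ]
    rw [h2]
    push_cast
    rw [h, mul_zero]
  set m : MvPolynomial I K := ∏ i ∈ Finset.univ.erase l, X i ^ (p - 1) with hm
  have hmon : m = monomial (∑ i ∈ Finset.univ.erase l, Finsupp.single i (p - 1)) 1 := by
    rw [hm]
    have : ∀ i : I, (X i : MvPolynomial I K) ^ (p - 1) = monomial (Finsupp.single i (p - 1)) 1 :=
      fun i => X_pow_eq_monomial
    simp_rw [this]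
    rw [monomial_sum_one]
  have hpd : pderiv l (X l + m) = 1 := by
    rw [map_add, pderiv_X_self]
    have : pderiv l m = 0 := by
      rw [hmon, pderiv_monomial]
      have h0 : (∑ i ∈ Finset.univ.erase l, Finsupp.single i (p - 1)) l = 0 := by
        rw [Finsupp.finset_sum_apply]
        refine Finset.sum_eq_zero fun i hi => ?_
        rw [Finsupp.single_apply, if_neg]
        rintro rfl
        simp at hi
      rw [h0]; simp
    rw [this, add_zero]
  unfold EE opN
  rw [hpd, mul_one, mul_comm, act_mul, iter_pow l _ hpd _ _ (by omega)]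
  have h1 : p - 1 - (p - 2) = 1 := by omega
  rw [h1, pow_one, ← smul_eq_C_mul, map_smul, map_add, smul_add]
  have h2 : act (∏ i ∈ Finset.univ.erase l, X i ^ (p - 1)) (X l : MvPolynomial I K) = 0 := by
    refine act_dvd_zero (P := X c') ?_ (by rw [act_X, pderiv_X_of_ne (Ne.symm hcl)])
    refine Dvd.dvd.trans ?_ (Finset.dvd_prod_of_mem _ (a := c') (by simp [hcl]))
    exact dvd_pow_self _ (by omega)
  rw [h2, smul_zero, zero_add, hmon, prod_monomial, tsub_self, one_mul]
  refine smul_ne_zero hdesc ?_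
  rw [Ne, monomial_eq_zero, Finset.prod_eq_zero_iff]
  rintro ⟨i, hi, h⟩
  have h0 : (∑ k ∈ Finset.univ.erase l, Finsupp.single k (p - 1)) i = p - 1 := by
    rw [Finsupp.finset_sum_apply, Finset.sum_eq_single i]
    · simp
    · intro j _ hj
      rw [Finsupp.single_apply, if_neg hj]
    · intro h; exact absurd hi h
  rw [h0, Nat.descFactorial_self] at h
  exact hfac h


theorem good_lin (p : ℕ) [Fact p.Prime] [CharP K p] (hcard : 3 ≤ Fintype.card I)
    (M : Matrix I I K) (hM : IsUnit M.det) : Good p (lin M) := by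
  have hp : 2 ≤ p := (Fact.out : p.Prime).two_le
  have hne : Nonempty I := Fintype.card_pos_iff.1 (by omega)
  refine Matrix.diagonal_transvection_induction_of_det_ne_zero (fun M => Good p (lin M)) M
    hM.ne_zero ?_ ?_ ?_
  · intro d hd
    rw [Matrix.det_diagonal, Finset.prod_ne_zero_iff] at hd
    exact good_diag p hp d (fun i => hd i (Finset.mem_univ i)) hne.some
  · intro t
    obtain ⟨c', hc'⟩ : ∃ c', c' ∉ ({t.i, t.j} : Finset I) := by
      by_contra hcon
      push Not at hcon
      have : Fintype.card I ≤ ({t.i, t.j} : Finset I).card :=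
        Finset.card_le_card fun x _ => hcon x
      have := Finset.card_le_two (a := t.i) (b := t.j)
      omega
    simp only [Finset.mem_insert, Finset.mem_singleton, not_or] at hc'
    exact good_transv p t.i t.j c' t.hij hc'.1 hc'.2 t.c
  · intro A B _ _ hA hB
    have : lin (A * B) = (lin B).comp (lin A) := by
      refine MvPolynomial.algHom_ext fun i => ?_
      simp only [AlgHom.comp_apply, lin, aeval_X, map_sum, map_mul, Matrix.mul_apply]
      simp_rw [Finset.mul_sum, Finset.sum_mul]
      rw [Finset.sum_comm]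
      refine Finset.sum_congr rfl fun j _ => Finset.sum_congr rfl fun k _ => ?_
      have : (aeval fun i => ∑ j, C (B i j) * (X j : MvPolynomial I K)) (C (A i j)) = C (A i j) := by
        simp
      rw [this]
      ring
    rw [this]
    exact hB.comp hA

end Comm

/-! ### The free associative algebra -/

/-- `K⟨x_0, …, x_{n-1}⟩`. -/
abbrev FA (K : Type*) [Field K] (n : ℕ) := FreeAlgebra K (Fin n)

/-- affine automorphisms: `x_i ↦ ∑_j M i j x_j + b_i` with `M` invertible -/
def IsAffine {K : Type*} [Field K] {n : ℕ} (φ : FA K n ≃ₐ[K] FA K n) : Prop :=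
  ∃ (M : Matrix (Fin n) (Fin n) K) (b : Fin n → K), IsUnit M.det ∧
    ∀ i, φ (FreeAlgebra.ι K i) = ∑ j, M i j • FreeAlgebra.ι K j + algebraMap K (FA K n) (b i)

/-- the automorphism `σ` of the problem: the last generator is sent to itself plus the product of
the first two, every other generator is fixed -/
def IsSigma {K : Type*} [Field K] {n : ℕ} (hn : 4 ≤ n) (φ : FA K n ≃ₐ[K] FA K n) : Prop :=
  ∀ i : Fin n, φ (FreeAlgebra.ι K i) =
    if i = ⟨n - 1, by omega⟩ then
      FreeAlgebra.ι K i + FreeAlgebra.ι K ⟨0, by omega⟩ * FreeAlgebra.ι K ⟨1, by omega⟩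
    else FreeAlgebra.ι K i

section Free

variable {K : Type*} [Field K] {n : ℕ}

/-- abelianisation -/
noncomputable def pr : FA K n →ₐ[K] MvPolynomial (Fin n) K := FreeAlgebra.lift K X

theorem pr_ι (i : Fin n) : pr (FreeAlgebra.ι K i) = X i := by
  unfold pr
  exact FreeAlgebra.lift_ι_apply _ _

/-- the induced map on the polynomial ring -/
noncomputable def ab (φ : FA K n →ₐ[K] FA K n) :
    MvPolynomial (Fin n) K →ₐ[K] MvPolynomial (Fin n) K :=
  aeval fun i => pr (φ (FreeAlgebra.ι K i))

theorem ab_pr (φ : FA K n →ₐ[K] FA K n) (a : FA K n) : ab φ (pr a) = pr (φ a) := by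
  have : (ab φ).comp pr = (pr : FA K n →ₐ[K] _).comp φ := by
    refine FreeAlgebra.hom_ext (funext fun i => ?_)
    simp [ab, pr_ι]
  exact DFunLike.congr_fun this a

theorem ab_comp (φ ψ : FA K n →ₐ[K] FA K n) : ab (φ.comp ψ) = (ab φ).comp (ab ψ) := by
  refine MvPolynomial.algHom_ext fun i => ?_
  have h : ∀ χ : FA K n →ₐ[K] FA K n, ab χ (X i) = pr (χ (FreeAlgebra.ι K i)) := fun χ => by
    simp [ab]
  rw [AlgHom.comp_apply, h, h, ab_pr]
  rfl

theorem ab_id : ab (AlgHom.id K (FA K n)) = AlgHom.id K _ := by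
  refine MvPolynomial.algHom_ext fun i => ?_
  simp [ab, pr_ι]

theorem good_of_closure (p : ℕ) [Fact p.Prime] [CharP K p] (hn : 4 ≤ n)
    (φ : FA K n ≃ₐ[K] FA K n)
    (hφ : φ ∈ Subgroup.closure ({φ : FA K n ≃ₐ[K] FA K n | IsAffine φ} ∪ {φ | IsSigma hn φ})) :
    Good p (ab (φ : FA K n →ₐ[K] FA K n)) := by
  induction hφ using Subgroup.closure_induction with
  | mem φ h =>
    rcases h with ⟨M, b, hM, h⟩ | h
    · have : ab (φ : FA K n →ₐ[K] FA K n) = (lin M).comp (tr b) := by
        refine MvPolynomial.algHom_ext fun i => ?_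
        simp only [ab, lin, tr, AlgHom.comp_apply, aeval_X, AlgEquiv.coe_algHom, h, map_add,
          map_sum, map_smul, pr_ι, smul_eq_C_mul]
        congr 1
        rw [AlgHom.commutes]
        simp [algebraMap_eq]
      rw [this]
      exact (good_lin p (by simpa using (by omega : 3 ≤ n)) M hM).comp (good_tr p b)
    · have : ab (φ : FA K n →ₐ[K] FA K n) =
          qu (⟨0, by omega⟩ : Fin n) ⟨1, by omega⟩ ⟨n - 1, by omega⟩ := by
        refine MvPolynomial.algHom_ext fun i => ?_
        have hs := (show IsSigma hn φ from h) i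
        simp only [ab, qu, aeval_X, AlgEquiv.coe_algHom, hs]
        split_ifs with h1
        · rw [map_add, map_mul, pr_ι, pr_ι, pr_ι, h1]
        · rw [pr_ι]
      rw [this]
      refine good_qu p _ _ _ (⟨2, by omega⟩ : Fin n) ?_ ?_ ?_ ?_ ?_ ?_ <;>
        simp only [ne_eq, Fin.mk.injEq] <;> omega
  | one =>
    refine ⟨1, one_ne_zero, fun j f => ?_⟩
    have : ab ((1 : FA K n ≃ₐ[K] FA K n) : FA K n →ₐ[K] FA K n) = AlgHom.id K _ := ab_id
    rw [this]
    simp
  | mul φ ψ _ _ h1 h2 =>
    have : ab ((φ * ψ : FA K n ≃ₐ[K] FA K n) : FA K n →ₐ[K] FA K n) =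
        (ab (φ : FA K n →ₐ[K] FA K n)).comp (ab (ψ : FA K n →ₐ[K] FA K n)) := by
      rw [← ab_comp]; rfl
    rw [this]
    exact h1.comp h2
  | inv φ _ h1 =>
    obtain ⟨u, hu, h⟩ := h1
    refine ⟨u⁻¹, inv_ne_zero hu, fun j f => ?_⟩
    have e1 : (ab ((φ : FA K n ≃ₐ[K] FA K n) : FA K n →ₐ[K] FA K n)).comp
        (ab ((φ⁻¹ : FA K n ≃ₐ[K] FA K n) : FA K n →ₐ[K] FA K n)) = AlgHom.id K _ := by
      rw [← ab_comp, ← ab_id]
      congr 1
      ext a
      exact φ.apply_symm_apply _
    have e2 : (ab ((φ⁻¹ : FA K n ≃ₐ[K] FA K n) : FA K n →ₐ[K] FA K n)).comp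
        (ab ((φ : FA K n ≃ₐ[K] FA K n) : FA K n →ₐ[K] FA K n)) = AlgHom.id K _ := by
      rw [← ab_comp, ← ab_id]
      congr 1
      ext a
      exact φ.symm_apply_apply _
    set A := ab ((φ : FA K n ≃ₐ[K] FA K n) : FA K n →ₐ[K] FA K n)
    set B := ab ((φ⁻¹ : FA K n ≃ₐ[K] FA K n) : FA K n →ₐ[K] FA K n)
    have e1' : ∀ x, A (B x) = x := fun x => DFunLike.congr_fun e1 x
    have e2' : ∀ x, B (A x) = x := fun x => DFunLike.congr_fun e2 x
    have h3 := h j (B f)
    rw [e1'] at h3
    rw [h3, map_mul, e2']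
    have hc : B (C u) = C u := by
      have : (C u : MvPolynomial (Fin n) K) = algebraMap K _ u := rfl
      rw [this, AlgHom.commutes]
    rw [hc, ← mul_assoc, ← C_mul, inv_mul_cancel₀ hu, C_1, one_mul]

/-- the ordered product of the `(p-1)`-st powers of all the generators but the last one -/
noncomputable def wd (K : Type*) [Field K] (n p : ℕ) (l : Fin n) : FA K n :=
  (((List.finRange n).filter (· ≠ l)).map fun i => FreeAlgebra.ι K i ^ (p - 1)).prod

/-- elementary endomorphism -/
noncomputable def el (l : Fin n) (w : FA K n) : FA K n →ₐ[K] FA K n :=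
  FreeAlgebra.lift K fun i => if i = l then FreeAlgebra.ι K i + w else FreeAlgebra.ι K i

theorem el_ι (l : Fin n) (w : FA K n) (i : Fin n) :
    el l w (FreeAlgebra.ι K i) = if i = l then FreeAlgebra.ι K i + w else FreeAlgebra.ι K i := by
  unfold el
  exact FreeAlgebra.lift_ι_apply _ _

theorem el_wd (p : ℕ) (l : Fin n) (w : FA K n) : el l w (wd K n p l) = wd K n p l := by
  unfold wd
  rw [map_list_prod, List.map_map]
  congr 1
  refine List.map_congr_left fun i hi => ?_
  have hil : i ≠ l := by simpa using (List.mem_filter.1 hi).2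
  simp only [Function.comp_apply, map_pow, el_ι, if_neg hil]

theorem el_comp (p : ℕ) (l : Fin n) (c d : K) (hcd : c + d = 0) :
    (el l (c • wd K n p l)).comp (el l (d • wd K n p l)) = AlgHom.id K _ := by
  refine FreeAlgebra.hom_ext (funext fun i => ?_)
  simp only [Function.comp_apply, AlgHom.comp_apply, el_ι, AlgHom.id_apply]
  split_ifs with h
  · rw [map_add, el_ι, if_pos h, map_smul, el_wd, add_assoc, ← add_smul, hcd, zero_smul, add_zero]
  · rw [el_ι, if_neg h]

/-- the elementary automorphism -/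
noncomputable def elA (p : ℕ) (l : Fin n) : FA K n ≃ₐ[K] FA K n :=
  AlgEquiv.ofAlgHom (el l ((1 : K) • wd K n p l)) (el l ((-1 : K) • wd K n p l))
    (el_comp p l 1 (-1) (by ring)) (el_comp p l (-1) 1 (by ring))

theorem pr_wd (p : ℕ) (l : Fin n) :
    pr (wd K n p l) = ∏ i ∈ Finset.univ.erase l, X i ^ (p - 1) := by
  unfold wd
  rw [map_list_prod, List.map_map]
  have h1 : ((List.finRange n).filter (· ≠ l)).map
      ((pr : FA K n →ₐ[K] _) ∘ fun i => FreeAlgebra.ι K i ^ (p - 1)) =
      ((List.finRange n).filter (· ≠ l)).map fun i => (X i : MvPolynomial (Fin n) K) ^ (p - 1) :=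
    List.map_congr_left fun i _ => by simp only [Function.comp_apply, map_pow, pr_ι]
  rw [h1]
  have hnd : ((List.finRange n).filter (· ≠ l)).Nodup := (List.nodup_finRange n).filter _
  have h2 : ((List.finRange n).filter (· ≠ l)).toFinset = Finset.univ.erase l := by
    ext i; simp
  rw [← h2, List.prod_toFinset _ hnd]

end Free

/-- **Q1 is false over every field of positive characteristic `p`, for every `n ≥ 4`.**  The
automorphism `e` sending the last generator `x_n` to `x_n + x_1^{p-1} x_2^{p-1} ⋯ x_{n-1}^{p-1}` and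
fixing the others is not in the subgroup generated by the affine automorphisms and `σ`. -/
theorem result (K : Type*) [Field K] (p : ℕ) [Fact p.Prime] [CharP K p] (n : ℕ) (hn : 4 ≤ n) :
    (∃ e : FA K n ≃ₐ[K] FA K n,
      (∀ i : Fin n, e (FreeAlgebra.ι K i) =
        if i = ⟨n - 1, by omega⟩ then
          FreeAlgebra.ι K i + (((List.finRange n).filter (· ≠ (⟨n - 1, by omega⟩ : Fin n))).map
            fun j => FreeAlgebra.ι K j ^ (p - 1)).prod
        else FreeAlgebra.ι K i) ∧
      e ∉ Subgroup.closure ({φ : FA K n ≃ₐ[K] FA K n | IsAffine φ} ∪ {φ | IsSigma hn φ})) ∧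
    Subgroup.closure ({φ : FA K n ≃ₐ[K] FA K n | IsAffine φ} ∪ {φ | IsSigma hn φ}) ≠ ⊤ := by
  have key : elA (K := K) p (⟨n - 1, by omega⟩ : Fin n) ∉
      Subgroup.closure ({φ : FA K n ≃ₐ[K] FA K n | IsAffine φ} ∪ {φ | IsSigma hn φ}) := by
    intro hmem
    obtain ⟨u, hu, h⟩ := good_of_closure p hn _ hmem
    have hp : 2 ≤ p := (Fact.out : p.Prime).two_le
    have hne : (⟨0, by omega⟩ : Fin n) ≠ ⟨n - 1, by omega⟩ := by
      simp only [ne_eq, Fin.mk.injEq]; omega
    refine EE_ne (K := K) p (⟨n - 1, by omega⟩ : Fin n) ⟨0, by omega⟩ hne ?_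
    have h1 : ab ((elA (K := K) p (⟨n - 1, by omega⟩ : Fin n) : FA K n ≃ₐ[K] FA K n) :
        FA K n →ₐ[K] FA K n) (X ⟨n - 1, by omega⟩) =
        X ⟨n - 1, by omega⟩ + ∏ i ∈ Finset.univ.erase (⟨n - 1, by omega⟩ : Fin n), X i ^ (p - 1) := by
      have : elA (K := K) p (⟨n - 1, by omega⟩ : Fin n) (FreeAlgebra.ι K ⟨n - 1, by omega⟩) =
          FreeAlgebra.ι K ⟨n - 1, by omega⟩ + wd K n p ⟨n - 1, by omega⟩ := by
        show el _ _ _ = _
        rw [el_ι, if_pos rfl, one_smul]
      simp only [ab, aeval_X, AlgEquiv.coe_algHom]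
      rw [this, map_add, pr_ι, pr_wd]
    rw [← h1, h, EE_X p hp _ _ _ hne, map_zero, mul_zero]
  refine ⟨⟨_, fun i => ?_, key⟩, fun htop => key (htop ▸ Subgroup.mem_top _)⟩
  show el _ _ _ = _
  rw [el_ι, one_smul]
  rfl

end Pool.Agent.Results.MP_119ce6_al.PositiveChar
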